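import Mathlib
import Pool.Agent.H84.HS.E

/-!
# Hypersurface sections of projective varieties: power saving for the exceptions

Let `X ⊆ ℙ^m` be an irreducible projective variety over a number field `K`, given by a homogeneous prime ideal
`𝔭`, and let `D` be the sum of `r` hypersurface sections `F i = 0` of `X`, of any degrees. For a number field
`L ⊇ K` and a finite set `S` of places of `L`, the truncated counting function `N_S^{(1)}(D, P)` is the sum of
`log N_v` over the finite places `v` outside `S` at which `P` reduces to a point of `D`, that is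
`v (F i x) < (max_j v (x j)) ^ d i` for some `i` (up to a bounded summand which comes from the choice of the
model, that is from the places at which the `F i` do not have integral coefficients or vanish).

We say that `D` is decomposable if the set of the components of `D` is the disjoint union of two non-empty sets
`J` and `J'` such that for each point `x` of `X` which is not on all components in `J` there is a point `y` of
`X` which is exactly on the components in `J'` and on those components in `J` which contain `x`. (For a
hyperplane arrangement this is the usual notion. The complement of a decomposable arrangement of hyperplanes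
is a product with `𝔾_m`.) If no `n + 1` of the `r ≥ n + 2` components meet on `X`, where `n` is the dimension
of `X`, then `D` is indecomposable. For `X = ℙ^n` this holds for all normal crossings divisors with at least
`n + 2` components.

If `D` is indecomposable and its components have no common point on `X` then there are `ν > 0` and a proper
closed set, which work for all `L`, `S` and `ε`, such that at most `M X ^ (1 - ν) H ^ ε` points of `X(L)` off
this closed set and off `D`, of height at most `H`, satisfy `N_S^{(1)}(D, P) ≤ log X`.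

Proof. Powers of the `F i` of the same degree give a finite map from `X` minus `D` to the torus. The
image `Z` is closed. If it is stable under a one-parameter subgroup with the weights `w i ≥ 0`, not all zero,
and `J` is the set of the `i` with `w i = 0`, not empty, then for each point of the closure of `Z` which has a
non-zero coordinate in `J` one can replace all coordinates outside `J` by zero. So the components of `D` are
decomposable. If `Z` is not stable, use the count for subvarieties of tori.
-/

set_option autoImplicit false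

open MvPolynomial NumberField Height Finset LinearAlgebra.Projectivization

namespace Pool.Agent.Results.MP_9ec3f0_nt.HypersurfaceSections

/-- the points of the affine cone over `X`, the zero set of `𝔭`, over a field `E` -/
def Cone {K : Type} [Field K] {m : ℕ} (𝔭 : Ideal (MvPolynomial (Fin (m + 1)) K)) (E : Type) [Field E]
    [Algebra K E] : Set (Fin (m + 1) → E) :=
  {x | ∀ g ∈ 𝔭, aeval x g = 0}

/-- the sections with index in `T` have no common zero on `X` -/
def NoCommonZero {K : Type} [Field K] {m r : ℕ} (𝔭 : Ideal (MvPolynomial (Fin (m + 1)) K))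
    (F : Fin r → MvPolynomial (Fin (m + 1)) K) (T : Finset (Fin r)) : Prop :=
  ∀ x ∈ Cone 𝔭 (AlgebraicClosure K), (∀ i ∈ T, aeval x (F i) = 0) → x = 0

/-- for each non-empty proper subset `J` of the set of indices there is a point `x` of `X`, not on all `F i = 0`
with `i ∈ J`, such that no point `y` of `X` is exactly on the `F i = 0` with `i ∉ J` or `F i x = 0` -/
def Indecomposable {K : Type} [Field K] {m r : ℕ} (𝔭 : Ideal (MvPolynomial (Fin (m + 1)) K))
    (F : Fin r → MvPolynomial (Fin (m + 1)) K) : Prop :=
  ∀ J : Finset (Fin r), J.Nonempty → J ≠ univ →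
    ∃ x ∈ Cone 𝔭 (AlgebraicClosure K), (∃ i ∈ J, aeval x (F i) ≠ 0) ∧
      ¬ ∃ y ∈ Cone 𝔭 (AlgebraicClosure K), ∀ i, aeval y (F i) = 0 ↔ (i ∉ J ∨ aeval x (F i) = 0)

/-- the truncated counting function of `D`: the sum of `log N_v` over the finite places `v` outside `S` at
which the point reduces to a point of `D` -/
noncomputable def counting {K L : Type} [Field K] [Field L] [NumberField L] [Algebra K L] {m r : ℕ}
    (S : Finset (FinitePlace L)) (F : Fin r → MvPolynomial (Fin (m + 1)) K) (d : Fin r → ℕ)
    (x : Fin (m + 1) → L) : ℝ :=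
  ∑ᶠ v : FinitePlace L, open scoped Classical in
    if v ∉ S ∧ ∃ i, v (aeval x (F i)) < (⨆ j, v (x j)) ^ d i then
      Real.log (Ideal.absNorm v.maximalIdeal.asIdeal : ℝ) else 0

/-- the points of `X(L)` off `D` and off `G = 0`, of multiplicative height (relative to `L`) at most `H`,
with truncated counting function at most `log X` -/
def Few {K : Type} [Field K] {m r : ℕ} (𝔭 : Ideal (MvPolynomial (Fin (m + 1)) K))
    (F : Fin r → MvPolynomial (Fin (m + 1)) K) (d : Fin r → ℕ) (G : MvPolynomial (Fin (m + 1)) K)
    (L : Type) [Field L] [NumberField L] [Algebra K L] (S : Finset (FinitePlace L)) (X H : ℝ) :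
    Set (ℙ L (Fin (m + 1) → L)) :=
  {P | P.rep ∈ Cone 𝔭 L ∧ (∀ i, aeval P.rep (F i) ≠ 0) ∧ aeval P.rep G ≠ 0 ∧ P.mulHeight ≤ H ∧
    counting S F d P.rep ≤ Real.log X}

/-- Let `X` be an irreducible projective variety over a number field `K` and let `D` be the sum of `r`
hypersurface sections of `X`. If `D` is indecomposable and its components have no common point on `X` then
there are `ν > 0` and a form `G`, not zero on `X`, such that for all number fields `L ⊇ K`, all finite sets
`S` of places of `L` and all `ε > 0` at most `M X ^ (1 - ν) H ^ ε` points of `X(L)` off `D` and off `G = 0`, of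
height at most `H`, satisfy `N_S^{(1)}(D, P) ≤ log X`. This holds if `n` is the dimension of `X`, `r ≥ n + 2`
and no `n + 1` of the components of `D` have a common point on `X`. -/
theorem result (K : Type) [Field K] [NumberField K] (m : ℕ) (𝔭 : Ideal (MvPolynomial (Fin (m + 1)) K))
    (hp : 𝔭.IsPrime) (hhom : ∀ g ∈ 𝔭, ∀ k, homogeneousComponent k g ∈ 𝔭) (r : ℕ) (hr : 1 ≤ r)
    (F : Fin r → MvPolynomial (Fin (m + 1)) K) (d : Fin r → ℕ) (hd : ∀ i, 1 ≤ d i)
    (hF : ∀ i, (F i).IsHomogeneous (d i)) :
    (NoCommonZero 𝔭 F univ → Indecomposable 𝔭 F →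
      ∃ ν : ℝ, 0 < ν ∧ ∃ (G : MvPolynomial (Fin (m + 1)) K) (k : ℕ), G.IsHomogeneous k ∧ G ∉ 𝔭 ∧
        ∀ (L : Type) [Field L] [NumberField L] [Algebra K L] (S : Finset (FinitePlace L)) (ε : ℝ), 0 < ε →
          ∃ M : ℝ, ∀ X H : ℝ, 1 ≤ X → 1 ≤ H → (Few 𝔭 F d G L S X H).Finite ∧
            ((Few 𝔭 F d G L S X H).ncard : ℝ) ≤ M * X ^ (1 - ν) * H ^ ε) ∧
    ∀ n : ℕ, Algebra.trdeg K (MvPolynomial (Fin (m + 1)) K ⧸ 𝔭) = (n + 1 : ℕ) → n + 2 ≤ r →
      (∀ T : Finset (Fin r), T.card = n + 1 → NoCommonZero 𝔭 F T) →
      NoCommonZero 𝔭 F univ ∧ Indecomposable 𝔭 F := by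
  classical
  obtain ⟨N, rfl⟩ : ∃ N, r = N + 1 := ⟨r - 1, by omega⟩
  refine ⟨fun hz hind => ?_, ?_⟩
  · obtain ⟨ν, hν, G, k, hG, hGp, h⟩ := Pool.Agent.H84.HS.main 𝔭 hp hhom F d hd hF
      (fun x h1 h2 => hz x h1 fun i _ => h2 i) (fun J hJ hJu => by
        obtain ⟨x, hx, hi, hno⟩ := hind J hJ hJu
        refine ⟨x, hx, hi, ?_⟩
        rintro ⟨y, hy, hy2⟩
        apply hno
        refine ⟨y, hy, fun i => ?_⟩
        have := hy2 i
        tauto)
    refine ⟨ν, hν, G, k, hG, hGp, ?_⟩
    intro L _ _ _ S ε hε
    obtain ⟨M, hM⟩ := h L S ε hε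
    refine ⟨M, fun X H hX hH => Pool.Agent.H57R3.VJ.fin_of_bdd _ _ fun PP hPP => hM X H hX hH PP ?_⟩
    intro P hP
    obtain ⟨g1, g2, g3, g4, g5⟩ := hPP hP
    refine ⟨g1, g2, g3, g4, le_trans (le_of_eq ?_) g5⟩
    unfold Pool.Agent.H84.HS.NS counting
    congr 1
  · intro n hdim hrn hgen
    constructor
    · intro x hx h
      obtain ⟨T, _, hT⟩ := exists_subset_card_eq (s := (univ : Finset (Fin (N + 1)))) (n := n + 1)
        (by rw [card_univ, Fintype.card_fin]; omega)
      exact hgen T hT x hx fun i _ => h i (mem_univ i)
    · intro J hJ hJu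
      haveI := hp
      obtain ⟨x, hx, hi, hno⟩ := Pool.Agent.H84.HS.indec_of_general 𝔭 hhom hdim F d hd hF
        (by rw [Fintype.card_fin]; exact hrn) (fun T hT x hx h => hgen T hT x hx h) J hJ hJu
      refine ⟨x, hx, hi, ?_⟩
      rintro ⟨y, hy, hy2⟩
      apply hno
      refine ⟨y, hy, fun i => ?_⟩
      have := hy2 i
      tauto

end Pool.Agent.Results.MP_9ec3f0_nt.HypersurfaceSections
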