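import Mathlib
import Pool.Agent.H84.VJ.D

/-!
# Hyperplanes over number fields: the exceptions off the special hyperplanes

`D` is the sum of `r ≥ n + 2` hyperplanes `a i = 0` of `ℙ^n` over a number field `K` in general position, so
that `h_{K_X + D} = (r - n - 1) h`; `S` is a finite set of places. Let `A` and `I` be disjoint non-empty sets
of indices with `n + 2` elements together. The stratum of `A` is the set of the points with `a i = 0` for
all `i ∈ A`; the join of the strata of `A` and of `I` is a special hyperplane. There are finitely many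
special hyperplanes. (The lines that meet both strata meet `D` in only `r - n` points.) We bound the number of
rational points `P` off `D` and off the special hyperplanes, of height at most `B`, with

  `N_S^{(1)}(D, P) ≤ θ h(P) + C`.

For `θ = r - n - 1` this is (the negation of) the inequality of the conjecture. Let `share k` be the
proportion of the sets of `n + 2 - k` indices which are disjoint from `k` given indices, `1 ≤ k ≤ n`. The
number of exceptions off the special hyperplanes is at most `M B ^ (α θ + β r + δ)` whenever `α, β ≥ 0` and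
`1 - share k ≤ α + β k` for all `k`. For instance `β = 0` and `α = 1 - s` with `s` the least of the `share k`.

For the proof the values of the forms are found one after the other, in a good order. Let `v` be a place at
which exactly the forms of a set `A` of `k` indices meet the point. If none of the first `n + 2 - k` forms is
in `A`, then after they are found, the place `v` costs nothing: for it divides the value of a form in the span
of these, which is not zero off the special hyperplanes.
-/

set_option autoImplicit false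

open NumberField Height Finset LinearAlgebra.Projectivization
open scoped Classical

namespace Pool.Agent.Results.MP_9ec3f0_nt.OffSpecialHyperplanes

open Pool.Agent.H57R3.VJ

/-- the `K`-points of height at most `B` off the hyperplanes at which the truncated counting function is
at most `θ h + C` -/
def Exc {K : Type*} [Field K] [NumberField K] {n r : ℕ} (S : Finset (FinitePlace K))
    (a : Fin r → Fin (n + 1) → K) (θ C B : ℝ) : Set (ℙ K (Fin (n + 1) → K)) :=
  {P | (∀ i, lin (a i) P.rep ≠ 0) ∧ P.mulHeight ≤ B ∧ N1 S a P.rep ≤ θ * Real.log P.mulHeight + C}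

/-- the union of the special hyperplanes: for disjoint non-empty sets `A`, `I` of indices with `n + 2`
elements together, the points on a line which joins a point `y` on all hyperplanes with index in `A` to a
point `z` on all hyperplanes with index in `I` -/
def SpecialHyperplanes {K : Type*} [Field K] {n r : ℕ} (a : Fin r → Fin (n + 1) → K) :
    Set (ℙ K (Fin (n + 1) → K)) :=
  {P | ∃ (A I : Finset (Fin r)) (y z : Fin (n + 1) → K), A.Nonempty ∧ I.Nonempty ∧ Disjoint A I ∧
    A.card + I.card = n + 2 ∧ P.rep = y + z ∧ (∀ i ∈ A, lin (a i) y = 0) ∧ ∀ i ∈ I, lin (a i) z = 0}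

/-- the proportion, among the sets of `n + 2 - k` of the `r` indices, of those which are disjoint from `k`
given indices -/
noncomputable def share (n r k : ℕ) : ℝ :=
  ((r - k).choose (n + 2 - k) : ℝ) / (r.choose (n + 2 - k) : ℝ)

/-- Let `r ≥ n + 2` hyperplanes of `ℙ^n` over a number field be in general position. The special hyperplanes
are finitely many hyperplanes. Let `α, β ≥ 0` and `1 - share n r k ≤ α + β k` for `k = 1, …, n`. For all
`θ ≥ 0`, `C` and `δ > 0` the number of exceptions of height at most `B` off the special hyperplanes is at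
most `M B ^ (α θ + β r + δ)`. In particular it is at most `M B ^ (θ (1 - s) + δ)`, where `s > 0` is the
least of the numbers `share n r k`, `1 ≤ k ≤ n`. -/
theorem result (K : Type*) [Field K] [NumberField K] (n r : ℕ) (hn : 1 ≤ n) (hr : n + 2 ≤ r)
    (a : Fin r → Fin (n + 1) → K)
    (ha : ∀ I : Finset (Fin r), I.card = n + 1 → LinearIndependent K (fun i : I => a i))
    (S : Finset (FinitePlace K)) :
    (∃ F : Finset (Fin (n + 1) → K), (∀ b ∈ F, b ≠ 0) ∧
      ∀ P ∈ SpecialHyperplanes a, ∃ b ∈ F, lin b P.rep = 0) ∧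
    (∀ θ C δ α β : ℝ, 0 ≤ θ → 0 < δ → 0 ≤ α → 0 ≤ β →
      (∀ k : ℕ, 1 ≤ k → k ≤ n → 1 - share n r k ≤ α + β * k) →
      ∃ M : ℝ, ∀ B : ℝ, 1 ≤ B →
        (Exc S a θ C B \ SpecialHyperplanes a).Finite ∧
        ((Exc S a θ C B \ SpecialHyperplanes a).ncard : ℝ) ≤ M * B ^ (α * θ + β * r + δ)) ∧
    ∃ k₀ : ℕ, 1 ≤ k₀ ∧ k₀ ≤ n ∧ 0 < share n r k₀ ∧ (∀ k, 1 ≤ k → k ≤ n → share n r k₀ ≤ share n r k) ∧
      ∀ θ C δ : ℝ, 0 ≤ θ → 0 < δ → ∃ M : ℝ, ∀ B : ℝ, 1 ≤ B →
        ((Exc S a θ C B \ SpecialHyperplanes a).ncard : ℝ) ≤ M * B ^ (θ * (1 - share n r k₀) + δ) := by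
  have hmul : ∀ P : ℙ K (Fin (n + 1) → K), P.mulHeight = mulHeight P.rep := by
    intro P
    conv_lhs => rw [← P.mk_rep]
    rw [Projectivization.mulHeight_mk]
  have hoff : ∀ θ C δ α β : ℝ, 0 ≤ θ → 0 < δ → 0 ≤ α → 0 ≤ β →
      (∀ k : ℕ, 1 ≤ k → k ≤ n → 1 - share n r k ≤ α + β * k) →
      ∃ M : ℝ, ∀ B : ℝ, 1 ≤ B →
        (Exc S a θ C B \ SpecialHyperplanes a).Finite ∧
        ((Exc S a θ C B \ SpecialHyperplanes a).ncard : ℝ) ≤ M * B ^ (α * θ + β * r + δ) := by
    intro θ C δ α β hθ hδ hα hβ hg
    obtain ⟨M, hM⟩ := Pool.Agent.H84.VJ.off_spec (K := K) (a := a) ha hr S θ C hθ hα hβ hg hδ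
    refine ⟨M, fun B hB => fin_of_bdd _ _ fun F hF => hM B hB F fun P hP => ?_⟩
    obtain ⟨⟨g1, g2, g3⟩, g4⟩ := hF hP
    rw [hmul] at g2 g3
    exact ⟨g1, g4, g2, g3⟩
  refine ⟨?_, hoff, ?_⟩
  · obtain ⟨F, hF1, hF2⟩ := Pool.Agent.H84.VJ.spec_proper (K := K) (a := a) ha (by omega)
    exact ⟨F, hF1, fun P hP => hF2 P.rep hP⟩
  · obtain ⟨k₀, hk, hmin⟩ := exists_min_image (Icc 1 n) (fun k => share n r k) ⟨1, by simp [hn]⟩
    obtain ⟨hk1, hk2⟩ := mem_Icc.1 hk
    have h1 : 0 < ((r - k₀).choose (n + 2 - k₀) : ℝ) := by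
      exact_mod_cast Nat.choose_pos (by omega)
    have h2 : 0 < (r.choose (n + 2 - k₀) : ℝ) := by
      exact_mod_cast Nat.choose_pos (by omega)
    have h3 : ((r - k₀).choose (n + 2 - k₀) : ℝ) ≤ (r.choose (n + 2 - k₀) : ℝ) := by
      exact_mod_cast Nat.choose_le_choose _ (Nat.sub_le r k₀)
    have hs1 : share n r k₀ ≤ 1 := by
      unfold share
      rw [div_le_one h2]
      exact h3
    refine ⟨k₀, hk1, hk2, div_pos h1 h2, fun k g1 g2 => hmin k (mem_Icc.2 ⟨g1, g2⟩),
      fun θ C δ hθ hδ => ?_⟩
    obtain ⟨M, hM⟩ := hoff θ C δ (1 - share n r k₀) 0 hθ hδ (by linarith) le_rfl (fun k g1 g2 => by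
      have := hmin k (mem_Icc.2 ⟨g1, g2⟩)
      linarith)
    refine ⟨M, fun B hB => ?_⟩
    have := (hM B hB).2
    rwa [show (1 - share n r k₀) * θ + 0 * (r : ℝ) + δ = θ * (1 - share n r k₀) + δ by ring] at this

end Pool.Agent.Results.MP_9ec3f0_nt.OffSpecialHyperplanes
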