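import Mathlib
import Pool.Agent.H84.VH.H

/-!
# Hyperplanes over number fields: the exceptions off the special subspaces

`D` is the sum of `r ≥ n + 2` hyperplanes `a i = 0` of `ℙ^n` over a number field `K` in general position, so
that `h_{K_X + D} = (r - n - 1) h`; `S` is a finite set of places. For a set `A` of indices the stratum of
`A` is the set of the points with `a i = 0` for all `i ∈ A`. A special subspace is the join of the stratum
of `A` and of the stratum of the complement of `A`, if both are non-empty. It is a proper linear subspace of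
`ℙ^n` (for `r = n + 2` it is given by the vanishing of the part indexed by `A` of the linear relation between
the forms). We bound the number of rational points `P` off `D` and off the special subspaces, of height at
most `B`, with

  `N_S^{(1)}(D, P) ≤ θ h(P) + C`

by `M B ^ (θ (1 - 1 / binom(r, ⌊r/2⌋)) + δ)`. For `θ = r - n - 1` this is (the negation of) the inequality
of the conjecture. For `r ≤ 2 n` and `0 < θ ≤ 1` there are at least `m B ^ θ` points with this property on the
special subspaces, if `C` is large: these contain all the exceptions but a proportion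
`O(B ^ (- θ / binom(r, ⌊r/2⌋) + δ))`.
-/

set_option autoImplicit false

open NumberField Height Finset LinearAlgebra.Projectivization
open scoped Classical

namespace Pool.Agent.Results.MP_9ec3f0_nt.OffSpecialSubspaces

open Pool.Agent.H57R3.VJ

/-- the `K`-points of height at most `B` off the hyperplanes at which the truncated counting function is
at most `θ h + C` -/
def Exc {K : Type*} [Field K] [NumberField K] {n r : ℕ} (S : Finset (FinitePlace K))
    (a : Fin r → Fin (n + 1) → K) (θ C B : ℝ) : Set (ℙ K (Fin (n + 1) → K)) :=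
  {P | (∀ i, lin (a i) P.rep ≠ 0) ∧ P.mulHeight ≤ B ∧ N1 S a P.rep ≤ θ * Real.log P.mulHeight + C}

/-- the union of the special subspaces: for a set `A` of indices, the points on a line which joins a point
`y` on all hyperplanes with index in `A` to a point `z` on all the other hyperplanes -/
def SpecialPoints {K : Type*} [Field K] {n r : ℕ} (a : Fin r → Fin (n + 1) → K) :
    Set (ℙ K (Fin (n + 1) → K)) :=
  {P | ∃ (A : Finset (Fin r)) (y z : Fin (n + 1) → K), y ≠ 0 ∧ z ≠ 0 ∧ P.rep = y + z ∧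
    (∀ i ∈ A, lin (a i) y = 0) ∧ ∀ i ∉ A, lin (a i) z = 0}

/-- Let `r ≥ n + 2` hyperplanes of `ℙ^n` over a number field be in general position. The special points lie
on finitely many hyperplanes. For all `θ ≥ 0`, `C` and `δ > 0` the number of exceptions of height at most
`B` which are not special is at most `M B ^ (θ (1 - 1 / binom(r, ⌊r/2⌋)) + δ)`. If `r ≤ 2 n`, `0 < θ ≤ 1` and
`C` is large, then at least `m B ^ θ` exceptions of height at most `B` are special, and the exceptions which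
are not special are a proportion at most `M B ^ (- θ / binom(r, ⌊r/2⌋) + δ)` of all exceptions. -/
theorem result (K : Type*) [Field K] [NumberField K] (n r : ℕ) (hr : n + 2 ≤ r)
    (a : Fin r → Fin (n + 1) → K)
    (ha : ∀ I : Finset (Fin r), I.card = n + 1 → LinearIndependent K (fun i : I => a i))
    (S : Finset (FinitePlace K)) :
    (∃ F : Finset (Fin (n + 1) → K), (∀ b ∈ F, b ≠ 0) ∧
      ∀ P ∈ SpecialPoints a, ∃ b ∈ F, lin b P.rep = 0) ∧
    (∀ θ C δ : ℝ, 0 ≤ θ → 0 < δ → ∃ M : ℝ, ∀ B : ℝ, 1 ≤ B →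
      (Exc S a θ C B).Finite ∧
      ((Exc S a θ C B \ SpecialPoints a).ncard : ℝ) ≤
        M * B ^ (θ * (1 - 1 / (r.choose (r / 2) : ℝ)) + δ)) ∧
    (r ≤ 2 * n → ∀ θ : ℝ, 0 < θ → θ ≤ 1 → ∃ C₀ : ℝ, ∀ C : ℝ, C₀ ≤ C →
      (∃ m : ℝ, 0 < m ∧ ∃ B₀ : ℝ, ∀ B : ℝ, B₀ ≤ B →
        m * B ^ θ ≤ ((Exc S a θ C B ∩ SpecialPoints a).ncard : ℝ)) ∧
      ∀ δ : ℝ, 0 < δ → ∃ M : ℝ, ∀ B : ℝ, 1 ≤ B →
        ((Exc S a θ C B \ SpecialPoints a).ncard : ℝ) ≤
          M * B ^ (-(θ / (r.choose (r / 2) : ℝ)) + δ) * ((Exc S a θ C B).ncard : ℝ)) := by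
  have hmul : ∀ P : ℙ K (Fin (n + 1) → K), P.mulHeight = mulHeight P.rep := by
    intro P
    conv_lhs => rw [← P.mk_rep]
    rw [Projectivization.mulHeight_mk]
  have hch : (0 : ℝ) < (r.choose (r / 2) : ℝ) := by
    exact_mod_cast Nat.choose_pos (Nat.div_le_self r 2)
  -- finiteness
  have hfin : ∀ θ C B : ℝ, 0 ≤ θ → 1 ≤ B → (Exc S a θ C B).Finite := by
    intro θ C B hθ hB
    obtain ⟨M, hM⟩ := count_main (K := K) (a := a) ha (by omega) S θ C hθ
      (α := (r.choose (n + 1) : ℝ)) (β := 0) (Nat.cast_nonneg _) le_rfl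
      (fun t _ _ => by
        have : (0 : ℝ) ≤ ((r - t).choose (n + 1) : ℝ) := Nat.cast_nonneg _
        linarith) one_pos
    refine (fin_of_bdd _ _ fun F hF => hM B hB F fun P hP => ?_).1
    obtain ⟨g1, g2, g3⟩ := hF hP
    rw [hmul] at g2 g3
    exact ⟨g1, g2, g3⟩
  have hoff : ∀ θ C δ : ℝ, 0 ≤ θ → 0 < δ → ∃ M : ℝ, ∀ B : ℝ, 1 ≤ B →
      ((Exc S a θ C B \ SpecialPoints a).ncard : ℝ) ≤
        M * B ^ (θ * (1 - 1 / (r.choose (r / 2) : ℝ)) + δ) := by
    intro θ C δ hθ hδ
    obtain ⟨M, hM⟩ := Pool.Agent.H84.VH.off_special (K := K) (a := a) ha (by omega) S θ C hθ hδ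
    refine ⟨M, fun B hB => (fin_of_bdd _ _ fun F hF => hM B hB F fun P hP => ?_).2⟩
    obtain ⟨⟨g1, g2, g3⟩, g4⟩ := hF hP
    rw [hmul] at g2 g3
    exact ⟨g1, g4, g2, g3⟩
  refine ⟨?_, ?_, ?_⟩
  · obtain ⟨F, hF1, hF2⟩ := Pool.Agent.H84.VH.special_proper (K := K) (a := a) ha hr
    exact ⟨F, hF1, fun P hP => hF2 P.rep hP⟩
  · intro θ C δ hθ hδ
    obtain ⟨M, hM⟩ := hoff θ C δ hθ hδ
    exact ⟨M, fun B hB => ⟨hfin θ C B hθ hB, hM B hB⟩⟩
  · intro hr2 θ hθ0 hθ1
    obtain ⟨C₀, m, B0, hm, hB0, h⟩ := Pool.Agent.H84.VH.lower (K := K) (a := a) ha hr hr2 S θ hθ0.le hθ1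
    refine ⟨C₀, fun C hC => ?_⟩
    have hlow : ∀ B : ℝ, B0 ≤ B → m * B ^ θ ≤ ((Exc S a θ C B ∩ SpecialPoints a).ncard : ℝ) := by
      intro B hB
      obtain ⟨PP, h1, h2⟩ := h B hB
      have hsub : (PP : Set (ℙ K (Fin (n + 1) → K))) ⊆ Exc S a θ C B ∩ SpecialPoints a := by
        intro P hP
        obtain ⟨g1, g2, g3, g4⟩ := h1 P hP
        refine ⟨⟨g1, ?_, ?_⟩, g2⟩
        · rw [hmul]; exact g3
        · rw [hmul]; linarith
      have hle := Set.ncard_le_ncard hsub
        ((hfin θ C B hθ0.le (hB0.trans hB)).subset Set.inter_subset_left)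
      rw [Set.ncard_coe_finset] at hle
      have : (PP.card : ℝ) ≤ ((Exc S a θ C B ∩ SpecialPoints a).ncard : ℝ) := by exact_mod_cast hle
      linarith
    refine ⟨⟨m, hm, B0, hlow⟩, fun δ hδ => ?_⟩
    obtain ⟨M1, hM1⟩ := hoff θ C δ hθ0.le hδ
    exact Pool.Agent.H84.VH.ratio_calc (off := fun B => ((Exc S a θ C B \ SpecialPoints a).ncard : ℝ))
      (all := fun B => ((Exc S a θ C B).ncard : ℝ)) (θ := θ) (ch := (r.choose (r / 2) : ℝ)) (δ := δ)
      (M1 := M1) (m := m) (B0 := B0) hθ0.le hch hδ hm hB0 (fun B => Nat.cast_nonneg _)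
      (fun B hB => by
        exact_mod_cast Set.ncard_le_ncard Set.sdiff_subset (hfin θ C B hθ0.le hB))
      hM1
      (fun B hB => by
        refine (hlow B hB).trans ?_
        exact_mod_cast Set.ncard_le_ncard Set.inter_subset_left (hfin θ C B hθ0.le (hB0.trans hB)))

end Pool.Agent.Results.MP_9ec3f0_nt.OffSpecialSubspaces
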