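import Mathlib
import Pool.Agent.H84.VA.F

/-!
# Closed subvarieties of tori: power saving for the exceptions means logarithmic general type

Let `U` be a closed irreducible subvariety of the torus `𝔾_m ^ N` over a number field `K`, given by a prime
ideal `I`, and let `(X, D)` be a compactification of `U`, for instance one with a normal crossings divisor
`D`. Outside a finite set of places of a number field `L ⊇ K` a point `x ∈ U(L)` reduces to a point of `D` if
and only if some coordinate of `x` is not a unit. So the truncated counting function `N_S^{(1)}(D, x)` is the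
sum of `log N_v` over these places, up to a bounded summand.

`U` is of logarithmic general type (`K_X + D` is big) if and only if it is not stable under a
positive-dimensional subtorus (Kawamata). For such `U` the conjecture predicts that off a proper closed set
`N_S^{(1)}(D, x)` is at least a positive multiple of the height, up to a constant. On the other hand the
number of the points of height at most `H` with `N_S^{(1)}(D, x) ≤ log X` is trivially at most
`M X ^ (1 + ε) H ^ ε`: there are at most `M X` sets of places `v` with product of the `N_v` at most `X`, and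
each of them admits few points.

We show that there is a power saving, off a proper closed set which works for all `L`, `S` and `ε`, if and
only if `U` is not stable under a positive-dimensional subtorus.

Proof. For a place `v` let `w` be the vector of the orders of the coordinates of `x`. If `U` is not stable
there is a finite set of pairs `(g, A)`, `g ∈ I`, such that for each `w ≠ 0` the set `A` is the set of the
exponents of the initial form of `g` for one of the pairs, and this initial form `g_A` is not in `I`
(compactness: an ultraproduct of weights for which there is no such pair gives a grading of `I`). So the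
places are divided into finitely many types `(g, A)`. The quotients of the monomials with exponents in `A` are
units at the places of this type, and `g_A(x)`, divided by such a monomial, is small at them. If the type
`(g, A)` has a large share of the product of the `N_v`, then guess the places of the other types; this gives
the quotients of the monomials and so the number `g_A(x) ≠ 0`, whose prime factors contain the places of the
type `(g, A)`.
-/

set_option autoImplicit false

open MvPolynomial NumberField Height Finset

namespace Pool.Agent.Results.MP_9ec3f0_nt.VeryAffineVarieties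

/-- the points of the zero set of `I` in the torus, over a field `F` -/
def TorusPoints {K : Type} [Field K] {N : ℕ} (I : Ideal (MvPolynomial (Fin N) K)) (F : Type) [Field F]
    [Algebra K F] : Set (Fin N → F) :=
  {x | (∀ i, x i ≠ 0) ∧ ∀ g ∈ I, aeval x g = 0}

/-- the zero set of `I` in the torus is stable under a one-parameter subgroup `t ↦ (t ^ w i)`, `w ≠ 0`, that
is under a positive-dimensional subtorus -/
def StableUnderTorus {K : Type} [Field K] {N : ℕ} (I : Ideal (MvPolynomial (Fin N) K)) : Prop :=
  ∃ w : Fin N → ℤ, w ≠ 0 ∧ ∀ x ∈ TorusPoints I (AlgebraicClosure K), ∀ t : AlgebraicClosure K, t ≠ 0 →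
    (fun i => t ^ w i * x i) ∈ TorusPoints I (AlgebraicClosure K)

/-- the truncated counting function of the boundary: the sum of `log N_v` over the finite places `v` outside
`S` at which some coordinate of `x` is not a unit -/
noncomputable def counting {L : Type} [Field L] [NumberField L] {N : ℕ} (S : Finset (FinitePlace L))
    (x : Fin N → L) : ℝ :=
  ∑ᶠ v : FinitePlace L, open scoped Classical in if v ∉ S ∧ ∃ i, v (x i) ≠ 1 then
    Real.log (Ideal.absNorm v.maximalIdeal.asIdeal : ℝ) else 0

/-- the `L`-points of `U` off `f = 0` with coordinates of multiplicative height (relative to `L`) at most `H`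
and truncated counting function at most `log X` -/
def Few {K : Type} [Field K] {N : ℕ} (I : Ideal (MvPolynomial (Fin N) K)) (f : MvPolynomial (Fin N) K)
    (L : Type) [Field L] [NumberField L] [Algebra K L] (S : Finset (FinitePlace L)) (X H : ℝ) :
    Set (Fin N → L) :=
  {x | x ∈ TorusPoints I L ∧ aeval x f ≠ 0 ∧ (∀ i, mulHeight₁ (x i) ≤ H) ∧ counting S x ≤ Real.log X}

/-- Let `U` be a closed irreducible subvariety of a torus over a number field `K`. Then `U` is not stable
under a positive-dimensional subtorus if and only if there are `ν > 0` and a proper closed subset `f = 0` of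
`U` such that for all number fields `L ⊇ K`, all finite `S` and all `ε > 0` at most `M X ^ (1 - ν) H ^ ε`
points of `U(L)` off `f = 0`, of height at most `H`, have truncated counting function at most `log X`
(`X, H ≥ 1`). If `U` is stable under a positive-dimensional subtorus and `f = 0` is any proper closed subset,
then `U` has points off `f = 0` over some `L`, and for each such `L` and all `S` at least `m X` points of
`U(L)` off `f = 0`, of height at most `X ^ A`, have truncated counting function at most `log X`, for all large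
`X`. -/
theorem result (K : Type) [Field K] [NumberField K] (N : ℕ) (I : Ideal (MvPolynomial (Fin N) K))
    (hI : I.IsPrime) (hX : ∀ i, X i ∉ I) :
    (¬ StableUnderTorus I ↔ ∃ ν : ℝ, 0 < ν ∧ ∃ f : MvPolynomial (Fin N) K, f ∉ I ∧
      ∀ (L : Type) [Field L] [NumberField L] [Algebra K L] (S : Finset (FinitePlace L)) (ε : ℝ), 0 < ε →
        ∃ M : ℝ, ∀ X H : ℝ, 1 ≤ X → 1 ≤ H → (Few I f L S X H).Finite ∧
          ((Few I f L S X H).ncard : ℝ) ≤ M * X ^ (1 - ν) * H ^ ε) ∧
    (StableUnderTorus I → ∀ f : MvPolynomial (Fin N) K, f ∉ I →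
      (∃ (L : Type) (_ : Field L) (_ : NumberField L) (_ : Algebra K L),
        ∃ x ∈ TorusPoints I L, aeval x f ≠ 0) ∧
      ∀ (L : Type) [Field L] [NumberField L] [Algebra K L] (S : Finset (FinitePlace L)),
        (∃ x ∈ TorusPoints I L, aeval x f ≠ 0) →
        ∃ m A X₀ : ℝ, 0 < m ∧ ∀ X : ℝ, X₀ ≤ X → m * X ≤ ((Few I f L S X (X ^ A)).ncard : ℝ)) := by
  classical
  have hcount : ∀ (L : Type) [Field L] [NumberField L] (S : Finset (FinitePlace L)) (x : Fin N → L),
      counting S x = Pool.Agent.H84.VA.N1 S x := by
    intro L _ _ S x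
    unfold counting Pool.Agent.H84.VA.N1
    congr 1
  have hstab : StableUnderTorus I ↔ ∃ w : Fin N → ℤ, w ≠ 0 ∧ Pool.Agent.H84.VA.StableUnder I w := by
    constructor
    · rintro ⟨w, hw, h⟩
      exact ⟨w, hw, fun x hx hx0 t ht => (h x ⟨hx0, hx⟩ t ht).2⟩
    · rintro ⟨w, hw, h⟩
      exact ⟨w, hw, fun x hx t ht => ⟨fun i => mul_ne_zero (zpow_ne_zero _ ht) (hx.1 i), h x hx.2 hx.1 t ht⟩⟩
  -- finiteness
  have hfin : ∀ (L : Type) [Field L] [NumberField L] [Algebra K L] (f : MvPolynomial (Fin N) K)
      (S : Finset (FinitePlace L)) (X H : ℝ), (Few I f L S X H).Finite := by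
    intro L _ _ _ f S X H
    refine (Set.Finite.pi' (t := fun _ : Fin N => {z : L | mulHeight₁ z ≤ H})
      fun _ => finite_setOfPred_mulHeight₁_le L H).subset ?_
    intro x hx i
    exact hx.2.2.1 i
  have hlow : StableUnderTorus I → ∀ f : MvPolynomial (Fin N) K, f ∉ I →
      ∀ (L : Type) [Field L] [NumberField L] [Algebra K L] (S : Finset (FinitePlace L)),
        (∃ x ∈ TorusPoints I L, aeval x f ≠ 0) →
        ∃ m A X₀ : ℝ, 0 < m ∧ ∀ X : ℝ, X₀ ≤ X → m * X ≤ ((Few I f L S X (X ^ A)).ncard : ℝ) := by
    intro hst f hf L _ _ _ S hx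
    obtain ⟨x, ⟨hx0, hx1⟩, hx2⟩ := hx
    obtain ⟨w, hw, hw2⟩ := hstab.1 hst
    obtain ⟨m, A, X0, hm, hX0, h⟩ := Pool.Agent.H84.VA.lower hw hw2 f hx0 hx1 hx2 S
    refine ⟨m, A, X0, hm, fun X hX => ?_⟩
    obtain ⟨PP, h1, h2⟩ := h X hX
    refine h2.trans ?_
    have hsub : (PP : Set (Fin N → L)) ⊆ Few I f L S X (X ^ A) := by
      intro y hy
      obtain ⟨g1, g2, g3, g4, g5⟩ := h1 y hy
      refine ⟨⟨g1, g2⟩, g3, g4, ?_⟩
      rw [hcount]
      exact g5
    have := Set.ncard_le_ncard hsub (hfin L f S X (X ^ A))
    rw [Set.ncard_coe_finset] at this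
    exact_mod_cast this
  refine ⟨⟨?_, ?_⟩, ?_⟩
  · intro hns
    obtain ⟨ν, hν, _, f, hf, h⟩ := Pool.Agent.H84.VA.upper I hI
      (Pool.Agent.H84.VA.notGraded_of_not_stable I fun h => hns (hstab.2 h))
    refine ⟨ν, hν, f, hf, ?_⟩
    intro L _ _ _ S ε hε
    obtain ⟨M, hM⟩ := h L S ε hε
    refine ⟨M, fun X H hX hH => ⟨hfin L f S X H, ?_⟩⟩
    have h1 := hM X H hX hH (hfin L f S X H).toFinset (by
      intro x hx
      rw [Set.Finite.mem_toFinset] at hx
      obtain ⟨g1, g2, g3, g4⟩ := hx
      refine ⟨g1.1, g1.2, g2, g3, ?_⟩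
      rw [← hcount]
      exact g4)
    rw [← Set.ncard_eq_toFinset_card _ (hfin L f S X H)] at h1
    exact h1
  · rintro ⟨ν, hν, f, hf, h⟩ hst
    obtain ⟨L, hL1, hL2, hL3, x, hx0, hx1, hx2⟩ := Pool.Agent.H84.VA.exists_point I hI hX f hf
    obtain ⟨m, A, X0, hm, hlow'⟩ := hlow hst f hf L ∅ ⟨x, ⟨hx0, hx1⟩, hx2⟩
    set A' : ℝ := max A 1 with hA'
    have hA0 : 0 < A' := lt_of_lt_of_le one_pos (le_max_right _ _)
    obtain ⟨M, hM⟩ := h L ∅ (ν / (2 * A')) (by positivity)
    -- a contradiction for large `X`
    have h1 : ∀ X : ℝ, max X0 1 ≤ X → m * X ^ (ν / 2) ≤ M := by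
      intro X hX
      have hX1 : 1 ≤ X := (le_max_right _ _).trans hX
      have hX0 : 0 < X := by linarith
      have hsub : Few I f L ∅ X (X ^ A) ⊆ Few I f L ∅ X (X ^ A') := by
        rintro y ⟨g1, g2, g3, g4⟩
        exact ⟨g1, g2, fun i => (g3 i).trans (Real.rpow_le_rpow_of_exponent_le hX1 (le_max_left _ _)), g4⟩
      have h2 := hlow' X ((le_max_left _ _).trans hX)
      have h3 : ((Few I f L ∅ X (X ^ A)).ncard : ℝ) ≤ ((Few I f L ∅ X (X ^ A')).ncard : ℝ) := by
        exact_mod_cast Set.ncard_le_ncard hsub (hfin L f ∅ X (X ^ A'))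
      have h4 := (hM X (X ^ A') hX1 (Real.one_le_rpow hX1 hA0.le)).2
      have h5 : M * X ^ (1 - ν) * (X ^ A') ^ (ν / (2 * A')) = M * X ^ (1 - ν / 2) := by
        rw [← Real.rpow_mul hX0.le, mul_assoc, ← Real.rpow_add hX0]
        congr 2
        field_simp
        ring
      rw [h5] at h4
      have h6 : m * X ≤ M * X ^ (1 - ν / 2) := h2.trans (h3.trans h4)
      have h7 : 0 < X ^ (1 - ν / 2) := Real.rpow_pos_of_pos hX0 _
      have h8 : m * X = m * X ^ (ν / 2) * X ^ (1 - ν / 2) := by
        rw [mul_assoc, ← Real.rpow_add hX0]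
        rw [show ν / 2 + (1 - ν / 2) = 1 by ring, Real.rpow_one]
      rw [h8] at h6
      exact le_of_mul_le_mul_right h6 h7
    have h2 : Filter.Tendsto (fun X : ℝ => m * X ^ (ν / 2)) Filter.atTop Filter.atTop :=
      (tendsto_rpow_atTop (by positivity)).const_mul_atTop hm
    obtain ⟨X, hX1, hX2⟩ := ((h2.eventually_gt_atTop M).and (Filter.eventually_ge_atTop (max X0 1))).exists
    linarith [h1 X hX2]
  · intro hst f hf
    refine ⟨?_, hlow hst f hf⟩
    obtain ⟨L, hL1, hL2, hL3, x, hx0, hx1, hx2⟩ := Pool.Agent.H84.VA.exists_point I hI hX f hf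
    exact ⟨L, hL1, hL2, hL3, x, ⟨hx0, hx1⟩, hx2⟩

end Pool.Agent.Results.MP_9ec3f0_nt.VeryAffineVarieties
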